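import Pool.Agent.H73.RE.Run
set_option autoImplicit false

/-!
# Every deterministic rule, even with exact optimisation over faces, is exponential on an abstract cube on
which Random-Edge is linear

`flip x i` is the neighbour of the vertex `x` of the `n`-cube in direction `i`, `improving f x` is the set
of directions `i` with `f x < f (flip x i)`, `sw x T` is the vertex `x` with all the directions in `T`
switched, and `seen f w t` is the list of triples (visited vertex, its value, its improving directions) for
`w t, …, w 0`.

A deterministic rule sees this list and names a pair `(T, D)`: it switches the set `T` of improving
directions (of any size, possibly empty), and then goes to the best one of the `2 ^ |D|` vertices of the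
face with the free directions `D` through the vertex it has reached (`Best`). Here `D` is any set of at
most `d` directions, and at least one improving direction has to lie in `T` or in `D`. There is no bound on
the memory or computation of the rule. A single pivot is the case `T = {i}`, `D = ∅`.

A randomised rule `p` sees the same list `l` and makes single pivots: it chooses one improving direction at
random, `i` with probability `p l i`; these probabilities may depend on everything seen, the only
restriction is `Odds β p`: of two improving directions neither is more than `β` times as probable as the
other one. Random-Edge is the case `β = 1` (`randomEdge_odds` below). `prob f p t l x` is the probability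
that the rule `p` makes at least `t` further steps from `x` if `l` has been seen before; so
`∑ t ∈ range T, prob f p (t + 1) l x` is, for all large `T`, the expected number of steps.

Theorem. Let `2 β² (100 k² (⌊log₂ n⌋ + 1)³ + 20 k d) ≤ n`. For every deterministic rule and every start
vertex there is an objective function with exactly one local maximum on every face of the `n`-cube such
that

* the deterministic rule makes at least `2 ^ k` steps, and each of the first `2 ^ k` vertices which it
  visits has at least `n - (100 k² (⌊log₂ n⌋ + 1)³ + 20 k d)` improving directions, but
* every randomised rule with odds at most `β` makes at most `2 n` expected steps, from every vertex and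
  whatever has been seen before.

So on one and the same objective function, `2 ^ (n ^ (1/2 - o(1)))` steps of the deterministic rule, each of
which optimises exactly over a face of dimension `√n` chosen by the rule, do not even lead to an approximate
local maximum (say, a vertex with at most `0.49 n` improving directions), while Random-Edge reaches the
maximum in `2 n` expected steps from everywhere: neither memory nor exact optimisation over faces (of
dimension `n / ω(log n)`) can replace random choices even where they are as good as they can be.

Proof. The adversary is that of `MP_4d246d_lc.SquareRootExponent`. The visited vertices, their sets of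
improving directions and the freezing of coordinates define nested hypersinks. At the next vertex after a
face step no direction of `D` is shown as improving, which costs at most `d` directions for each record.
The new point is the choice of the orientation everywhere else: there is a target `v` which differs from
each visited vertex in at least `n / 5` of its wiping directions (all of the exponentially many visited
vertices have `3 n / 4` of them; Chernoff), and in every region all directions lead to `v`, up to the frozen
coordinates. An induction along the nested regions (`ExtT`, `extT_comp`) gives: (1) outside of a set `B` of
bad vertices, the set of improving directions is the set of the directions in which one differs from `v`, up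
to `(2 k + 1) s` exceptions, `s = O(k log² n + d)`; (2) at most `k` directions lead into `B`; (3) at a bad
vertex at least `n / 5 - k` improving directions lead out of `B`; (4) as long as there are visited vertices
that are not wiped, one differs from `v` in at least `n / 5` directions. So `3/2` times the distance from
`v`, plus `15 β` on `B`, decreases by at least `1` on average in every step of a rule with odds at most `β`.
-/

namespace Pool.Agent.Results.MP_4d246d_lc.DeterministicVsRandom

open Finset Pool.Agent.TH70.AR Pool.Agent.TH70.AR.MS Pool.Agent.H73.FS Pool.Agent.H73.RE

/-- Random-Edge chooses each improving direction with the same probability. -/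
noncomputable def randomEdge (n : ℕ) :
    List ((Fin n → Bool) × ℕ × Finset (Fin n)) → Fin n → ℝ
  | [], _ => 0
  | (_, _, S) :: _, _ => 1 / S.card

/-- Random-Edge has odds at most `1`, hence at most `β`. -/
theorem randomEdge_odds (n β : ℕ) (hβ : 1 ≤ β) : Odds (β : ℝ) (randomEdge n) := by
  intro x c S l hS
  have h : (0 : ℝ) < S.card := by exact_mod_cast hS.card_pos
  have hβR : (1 : ℝ) ≤ β := by exact_mod_cast hβ
  refine ⟨fun i _ => by simp only [randomEdge]; positivity, ?_, fun i _ j _ => ?_⟩
  · simp only [randomEdge, sum_const, nsmul_eq_mul]
    field_simp
  · simp only [randomEdge]
    exact le_mul_of_one_le_left (by positivity) hβR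

/-- **For every deterministic rule with unlimited memory, even if each step optimises exactly over a face of
dimension at most `d`, there is an abstract cube on which it is exponential, while Random-Edge and all
randomised rules with bounded odds are linear from every vertex.**
Let `k, β ≥ 1` and `2 β ^ 2 (100 k ^ 2 (⌊log₂ n⌋ + 1) ^ 3 + 20 k d) ≤ n`. The deterministic rule sees the
list of triples (visited vertex, its objective value, its set of improving directions), the current one
first, and names `(T, D)`, where `T` is a set of improving directions, `|D| ≤ d`, and an improving direction
lies in `T` or in `D`; then the directions in `T` are switched, and one goes to the best vertex of the face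
with the free directions `D`. For every such rule and every start vertex `x₀` of the `n`-cube there is an
injective objective function `f` with exactly one local maximum on every face (so that the steps of the rule
increase `f`, and increasing paths of at most `n` steps along edges lead from every vertex to the maximum)
such that the rule, started at `x₀`, reaches the maximum after `L ≥ 2 ^ k` steps, and each of its first
`2 ^ k` vertices has at least `n - (100 k ^ 2 (⌊log₂ n⌋ + 1) ^ 3 + 20 k d)` improving directions; but every
randomised rule `p` which sees the same list and chooses one improving direction, none with more than `β`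
times the probability of another one, makes at most `2 n` expected steps on `f`, from every vertex `x` and
after everything `l` that it may have seen before. -/
theorem result (n k d β : ℕ) (hk : 1 ≤ k) (hβ : 1 ≤ β)
    (hn : 2 * β ^ 2 * (100 * k ^ 2 * (Nat.log 2 n + 1) ^ 3 + 20 * k * d) ≤ n)
    (rule : List ((Fin n → Bool) × ℕ × Finset (Fin n)) → Finset (Fin n) × Finset (Fin n))
    (hrule : ∀ (x : Fin n → Bool) (c : ℕ) (S : Finset (Fin n))
      (l : List ((Fin n → Bool) × ℕ × Finset (Fin n))), S.Nonempty →
        (rule ((x, c, S) :: l)).1 ⊆ S ∧ (rule ((x, c, S) :: l)).2.card ≤ d ∧
        ((rule ((x, c, S) :: l)).1 ∪ (rule ((x, c, S) :: l)).2 ∩ S).Nonempty)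
    (x₀ : Fin n → Bool) :
    ∃ (f : (Fin n → Bool) → ℕ) (L : ℕ) (w : ℕ → (Fin n → Bool)),
      Function.Injective f ∧
      (∀ (U : Finset (Fin n)) (x : Fin n → Bool), ∃! y : Fin n → Bool,
        (∀ i, i ∉ U → y i = x i) ∧ ∀ i ∈ U, f (TH70.AR.flip y i) < f y) ∧
      (∀ (x y : Fin n → Bool) (T D : Finset (Fin n)), T ⊆ improving f x →
        (T ∪ D ∩ improving f x).Nonempty → Best f (sw x T) D y → f x < f y) ∧
      (∀ x : Fin n → Bool, ∃ (m : ℕ) (v : ℕ → (Fin n → Bool)), m ≤ n ∧ v 0 = x ∧
        (∀ t < m, ∃ i ∈ improving f (v t), v (t + 1) = TH70.AR.flip (v t) i) ∧
        improving f (v m) = ∅) ∧
      w 0 = x₀ ∧
      (∀ t < L, (improving f (w t)).Nonempty ∧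
        Best f (sw (w t) (rule (seen f w t)).1) (rule (seen f w t)).2 (w (t + 1))) ∧
      improving f (w L) = ∅ ∧ 2 ^ k ≤ L ∧
      (∀ t < 2 ^ k, n ≤ (improving f (w t)).card +
        (100 * k ^ 2 * (Nat.log 2 n + 1) ^ 3 + 20 * k * d)) ∧
      ∀ p : List ((Fin n → Bool) × ℕ × Finset (Fin n)) → Fin n → ℝ, Odds (β : ℝ) p →
        ∀ (T : ℕ) (l : List ((Fin n → Bool) × ℕ × Finset (Fin n))) (x : Fin n → Bool),
          ∑ t ∈ range T, prob f p (t + 1) l x ≤ 2 * n := by
  obtain ⟨f, h1, h2, L, w, h3, h4, h5, h6, h7, h8⟩ := separation hk hβ hn rule hrule x₀
  exact ⟨f, L, w, h1, h2, fun x y T D hT hne hy => best_lt h2 hT hne hy, short_path h2, h3, h4,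
    h5, h6, h7, h8⟩

end Pool.Agent.Results.MP_4d246d_lc.DeterministicVsRandom
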