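import Pool.Agent.H73.TR.Sy

/-!
# Prime triplets in systems of Beurling primes with the Riemann hypothesis and the Lindelöf hypothesis

A system of generalised primes (Beurling primes) is a sequence `1 < q 0 < q 1 < ...` of real numbers; its generalised
integers are the products `gint q n = ∏ q (k - 1)` over the prime factors of `n` (with multiplicity, the factor being the
`k`-th prime number), one for every `n ≥ 1`, counted with multiplicity; for `q = 2, 3, 5, ...` one has `gint q n = n`.
A prime triplet is a triple of consecutive primes `q n < q (n + 1) < q (n + 2)` with `q (n + 2) - q n = 6`.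

`RHSystem q` collects what the Riemann hypothesis and the Lindelöf hypothesis would give for the primes, in a strong form:
the generalised primes satisfy the prime number theorem with the error `O(√x)`, the generalised integers have a positive
density with the error `O(x ^ (1 / 2 + ε))`, and the zeta function `∑ (gint q n) ^ (-s)` is `s / (s - 1) * exp (G s)` with `G`
holomorphic in `Re s > 1 / 2` and `|G (σ + i t)| = O(√ (log (|t| + 3)))` uniformly in every half-plane `σ ≥ σ₀ > 1 / 2`; so it has
a meromorphic continuation with one simple pole and without zeros in `Re s > 1 / 2`, and there it and its reciprocal are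
`O(|t| ^ ε)` for every `ε > 0`.

The theorem: these hypotheses say nothing about the prime triplets. The triplets `(p, p + 2, p + 6)` and the triplets
`(p, p + 4, p + 6)` can have, independently of each other, all the laws `∫_2^x f(u) du / log u + O(x ^ (1 / 2 + ε))`, with
measurable `f` (the Hardy-Littlewood law is `f = c / log ^ 2`); one type can be present and the other absent; and there
may be no triplets at all, in the strong form `q (n + 2) - q n → ∞`.

Proof. Let `m u = (1 - 1 / u) / log u`; `exp ∫_1^∞ u ^ (-s) m u du = s / (s - 1)`. Cut `(1, ∞)` into slots of mass `3` and put three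
points in each slot: either one in each of three subslots of mass `1`, or a triple `(p, p + 2, p + 6)` or `(p, p + 4, p + 6)`
that is wrapped around in the slot, so that each of the three points is uniformly distributed when `p` is. The types of
the slots are chosen with bounded discrepancy (two queues), and the positions by the method of conditional expectations for
countably many tests: the exponential moments of the twisted sums `∑_{q ≤ x} q ^ (-i m)` and of the number of the triples that are
not wrapped, outside null sets that would create triplets across the slots. The analytic part (continuation of the zeta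
function, count of the generalised integers) is `Pool.Agent.H49.BP`, made for `MP_ff81b6_nt.BeurlingGaps`.
-/

set_option autoImplicit false

open Filter Topology MeasureTheory

namespace Pool.Agent.Results.MP_dddec0_nt.TripletsUnderRH

open Pool.Agent.H49.BP

/-- The number of generalised primes up to `x`. -/
noncomputable def primeCount (q : ℕ → ℝ) (x : ℝ) : ℕ := {j : ℕ | q j ≤ x}.ncard

/-- The number of generalised integers up to `x`, with multiplicity. -/
noncomputable def intCount (q : ℕ → ℝ) (x : ℝ) : ℕ := {n : ℕ | 1 ≤ n ∧ gint q n ≤ x}.ncard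

/-- The number of the triplets of consecutive generalised primes `(p, p + s, p + 6)` with `p ≤ x`. -/
noncomputable def tripletCount (q : ℕ → ℝ) (s x : ℝ) : ℕ :=
  {n : ℕ | q n ≤ x ∧ q (n + 1) = q n + s ∧ q (n + 2) = q n + 6}.ncard

/-- The generalised primes `q` satisfy the analogues of the Riemann hypothesis and of the Lindelöf hypothesis: they increase
strictly from `q 0 > 1`; their number up to `x` is `∫_2^x du / log u + O(√x)`; the number of the generalised integers up to `x` is
`ρ x + O(x ^ (1 / 2 + ε))` for every `ε > 0`, with a `ρ > 0`; the zeta function is `s / (s - 1) * exp (G s)` for `Re s > 1`, with a function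
`G` that is holomorphic in `Re s > 1 / 2` and at most `C √(log (|Im s| + 3))` for `Re s ≥ σ`, for every `σ > 1 / 2`. -/
def RHSystem (q : ℕ → ℝ) : Prop :=
  StrictMono q ∧ 1 < q 0 ∧
    (∃ C : ℝ, ∀ x : ℝ, 2 ≤ x → |(primeCount q x : ℝ) - ∫ u in (2 : ℝ)..x, (Real.log u)⁻¹| ≤ C * √x) ∧
    (∃ ρ : ℝ, 0 < ρ ∧ ∀ ε : ℝ, 0 < ε → ∃ C : ℝ, ∀ x : ℝ, 1 ≤ x →
      |(intCount q x : ℝ) - ρ * x| ≤ C * x ^ (1 / 2 + ε)) ∧
    ∃ G : ℂ → ℂ, DifferentiableOn ℂ G {s | 1 / 2 < s.re} ∧
      (∀ s : ℂ, 1 < s.re → ∑' n : ℕ, ((gint q (n + 1) : ℝ) : ℂ) ^ (-s) = s / (s - 1) * Complex.exp (G s)) ∧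
      ∀ σ : ℝ, 1 / 2 < σ → ∃ C : ℝ, ∀ s : ℂ, σ ≤ s.re → ‖G s‖ ≤ C * √(Real.log (|s.im| + 3))

theorem rh_of {q : ℕ → ℝ} (hmono : StrictMono q) (hg : ∀ n : ℕ, (n : ℝ) + 1 ≤ q n) (hq0 : 1 < q 0) (hD : Disc q)
    (hp : ∃ C : ℝ, ∀ x : ℝ, 2 ≤ x → |(pc q x : ℝ) - ∫ u in (2 : ℝ)..x, (Real.log u)⁻¹| ≤ C * √x) : RHSystem q := by
  obtain ⟨G, hG1, hG2, hG3, ρ, hρ, hN⟩ := zeta hmono hg hq0 hD
  refine ⟨hmono, hq0, hp, ⟨ρ, hρ, fun ε hε => ?_⟩, G, hG1, hG2, hG3⟩
  obtain ⟨C, hC⟩ := hN ε hε
  refine ⟨C, fun x hx => ?_⟩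
  have e : intCount q x = {n : ℕ | gint q (n + 1) ≤ x}.ncard := by
    unfold intCount
    have h1 : {n : ℕ | 1 ≤ n ∧ gint q n ≤ x} = (fun n => n + 1) '' {n : ℕ | gint q (n + 1) ≤ x} := by
      ext n
      constructor
      · rintro ⟨h2, h3⟩
        refine ⟨n - 1, ?_, by simp only; omega⟩
        show gint q (n - 1 + 1) ≤ x
        rw [Nat.sub_add_cancel h2]
        exact h3
      · rintro ⟨k, hk, rfl⟩
        exact ⟨by simp only; omega, hk⟩
    rw [h1, Set.ncard_image_of_injective _ (fun a b hab => by simpa using hab)]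
  rw [e]
  exact hC x hx

/-- For all measurable `f₂, f₄ ≥ 0` with `f₂ + f₄ ≤ 1 / 4` there are generalised primes with the analogues of the Riemann
hypothesis and of the Lindelöf hypothesis such that the number of the triplets `(p, p + 2, p + 6)` with `p ≤ x` is
`∫_2^x f₂(u) du / log u + O(x ^ (1 / 2 + ε))`, the number of the triplets `(p, p + 4, p + 6)` is
`∫_2^x f₄(u) du / log u + O(x ^ (1 / 2 + ε))`, and the triplets `(p, p + s, p + 6)` with other `s` are finitely many; and if `f₂ = 0`
or `f₄ = 0`, the triplets of this type are finitely many. There are also such generalised primes with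
`q (n + 2) - q n → ∞`, so that there are only finitely many triplets. -/
theorem result :
    (∀ f₂ f₄ : ℝ → ℝ, Measurable f₂ → Measurable f₄ → (∀ u, 0 ≤ f₂ u) → (∀ u, 0 ≤ f₄ u) →
      (∀ u, f₂ u + f₄ u ≤ 1 / 4) → ∃ q : ℕ → ℝ, RHSystem q ∧
        (∀ ε : ℝ, 0 < ε → ∃ C : ℝ, ∀ x : ℝ, 2 ≤ x →
          |(tripletCount q 2 x : ℝ) - ∫ u in (2 : ℝ)..x, f₂ u / Real.log u| ≤ C * x ^ (1 / 2 + ε) ∧
          |(tripletCount q 4 x : ℝ) - ∫ u in (2 : ℝ)..x, f₄ u / Real.log u| ≤ C * x ^ (1 / 2 + ε)) ∧
        {n : ℕ | q (n + 2) = q n + 6 ∧ q (n + 1) ≠ q n + 2 ∧ q (n + 1) ≠ q n + 4}.Finite ∧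
        ((∀ u, f₂ u = 0) → {n : ℕ | q (n + 1) = q n + 2 ∧ q (n + 2) = q n + 6}.Finite) ∧
        ((∀ u, f₄ u = 0) → {n : ℕ | q (n + 1) = q n + 4 ∧ q (n + 2) = q n + 6}.Finite)) ∧
    ∃ q : ℕ → ℝ, RHSystem q ∧ Tendsto (fun n => q (n + 2) - q n) atTop atTop := by
  constructor
  · intro f₂ f₄ h2m h4m h20 h40 hb
    obtain ⟨q, hmono, hg, hq0, hD, hp, hc2, hc4, h1, h2, h3, _⟩ := Pool.Agent.H73.TR.system h2m h4m h20 h40 hb
    refine ⟨q, rh_of hmono hg hq0 hD hp, fun ε hε => ?_, h1, h2, h3⟩
    obtain ⟨C2, hC2⟩ := hc2 ε hε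
    obtain ⟨C4, hC4⟩ := hc4 ε hε
    refine ⟨max C2 C4, fun x hx => ?_⟩
    have hx0 : 0 ≤ x ^ (1 / 2 + ε) := Real.rpow_nonneg (by linarith) _
    exact ⟨(hC2 x hx).trans (mul_le_mul_of_nonneg_right (le_max_left _ _) hx0),
      (hC4 x hx).trans (mul_le_mul_of_nonneg_right (le_max_right _ _) hx0)⟩
  · obtain ⟨q, hmono, hg, hq0, hD, hp, _, _, _, _, _, h⟩ := Pool.Agent.H73.TR.system (f2 := fun _ => 0)
      (f4 := fun _ => 0) measurable_const measurable_const (fun _ => le_rfl) (fun _ => le_rfl) (fun _ => by norm_num)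
    exact ⟨q, rh_of hmono hg hq0 hD hp, h (fun _ => rfl) (fun _ => rfl)⟩

end Pool.Agent.Results.MP_dddec0_nt.TripletsUnderRH
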